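import Pool.Agent.PSV.StmtsG

/-!
# Squad PSV, row GMP: matrices of G-type series, explicit

An edit of `Helper39_MT.gm` (`Helper39_MT/Gal3.lean`).
-/

set_option autoImplicit false

namespace Pool.Agent.PSV.H1

open Matrix Polynomial Pool.Agent.MT100 Pool.Agent.MT100G Pool.Agent.MT100D Pool.Agent.Helper39_MT
  Pool.Agent.MT100D.H78 Pool.Agent.MT100.H76 Pool.Agent.PSV

/-- GMP -/
theorem gmp : GmpStmt := by
  intro n
  refine ⟨n ^ 2 + 2 * (n ^ 2 + 1), fun d _ _ B X hB hn hX m => ?_⟩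
  have hB0 : 0 < B := by omega
  set s : ℕ := Fintype.card d with hs
  set P : ℕ := B ^ (n ^ 2) with hP
  have hP0 : 0 < P := by positivity
  have hle : B ^ (s ^ 2) ≤ P := Nat.pow_le_pow_right hB0 (Nat.pow_le_pow_left hn 2)
  have hC : 2 * (n ^ 2 + 1) * P ≤ B ^ (n ^ 2 + 2 * (n ^ 2 + 1)) := by
    rw [pow_add, mul_comm (B ^ (n ^ 2))]
    apply Nat.mul_le_mul_right
    exact Nat.lt_two_pow_self.le.trans (Nat.pow_le_pow_left hB _)
  have hPC : P ≤ B ^ (n ^ 2 + 2 * (n ^ 2 + 1)) := Nat.pow_le_pow_right hB0 (by omega)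
  by_cases hd : IsEmpty d
  · refine ⟨?_, 1, one_pos, Nat.one_le_pow _ _ (by positivity), fun i => (hd.false i).elim⟩
    have h0 : msz m X = 0 := by
      simp [msz]
    rw [h0]
    positivity
  have hd' : Nonempty d := not_isEmpty_iff.1 hd
  have hs1 : 1 ≤ s := Fintype.card_pos
  have hBP : B ≤ P := by
    have h1 : B ^ 1 ≤ B ^ (s ^ 2) := Nat.pow_le_pow_right hB0 (Nat.one_le_pow _ _ hs1)
    rw [pow_one] at h1
    exact h1.trans hle
  refine ⟨?_, ?_⟩
  · have h1 : ∀ i j, sz m (X i j) ≤ (2 * (P : ℚ)) ^ (m + 1) := by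
      intro i j
      have h2 : ∀ k ∈ Finset.range (m + 1), |PowerSeries.coeff k (X i j)| ≤ (P : ℚ) ^ (m + 1) := by
        intro k hk
        rw [Finset.mem_range] at hk
        refine ((hX i j k).1).trans ?_
        have h3 : B ^ (k + 1) ≤ P ^ (m + 1) :=
          (Nat.pow_le_pow_left hBP _).trans (Nat.pow_le_pow_right hP0 (by omega))
        exact_mod_cast h3
      have h4 := Finset.sum_le_sum h2
      rw [Finset.sum_const, Finset.card_range, nsmul_eq_mul] at h4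
      refine h4.trans ?_
      rw [mul_pow]
      apply mul_le_mul_of_nonneg_right _ (by positivity)
      have : m + 1 ≤ 2 ^ (m + 1) := Nat.lt_two_pow_self.le
      exact_mod_cast this
    have h5 : msz m X ≤ ∑ _i : d, ∑ _j : d, (2 * (P : ℚ)) ^ (m + 1) :=
      Finset.sum_le_sum fun i _ => Finset.sum_le_sum fun j _ => h1 i j
    refine h5.trans ?_
    rw [Finset.sum_const, Finset.sum_const, Finset.card_univ, nsmul_eq_mul, nsmul_eq_mul,
      ← mul_assoc]
    have h6 : ((2 * (n ^ 2 + 1) * P : ℕ) : ℚ) ^ (m + 1) ≤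
        ((B ^ (n ^ 2 + 2 * (n ^ 2 + 1)) : ℕ) : ℚ) ^ (m + 1) :=
      pow_le_pow_left₀ (by positivity) (by exact_mod_cast hC) _
    refine le_trans ?_ h6
    have h7 : ((2 * (n ^ 2 + 1) * P : ℕ) : ℚ) = ((n : ℚ) ^ 2 + 1) * (2 * P) := by
      push_cast
      ring
    rw [h7, mul_pow ((n : ℚ) ^ 2 + 1)]
    apply mul_le_mul_of_nonneg_right _ (by positivity)
    have h8 : (1 : ℚ) ≤ (n : ℚ) ^ 2 + 1 := by
      have : (0 : ℚ) ≤ (n : ℚ) ^ 2 := by positivity
      linarith only [this]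
    have h9 : (s : ℚ) ≤ n := by exact_mod_cast hn
    have h10 : (0 : ℚ) ≤ s := by positivity
    calc (s : ℚ) * s ≤ n * n := mul_le_mul h9 h9 h10 (h10.trans h9)
      _ ≤ ((n : ℚ) ^ 2 + 1) ^ 1 := by
          rw [pow_one, sq]
          linarith only
      _ ≤ _ := pow_le_pow_right₀ h8 (by omega)
  · have h1 : ∀ i j, ∃ D : ℕ, 0 < D ∧ D ≤ B ^ (m + 1) ∧ ∀ k ≤ m, ∃ z : ℤ,
        (D : ℚ) * PowerSeries.coeff k (X i j) = z := fun i j => (hX i j m).2
    choose D hD0 hD1 hD2 using h1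
    refine ⟨∏ i, ∏ j, D i j, Finset.prod_pos fun i _ => Finset.prod_pos fun j _ => hD0 i j, ?_, ?_⟩
    · calc ∏ i, ∏ j, D i j ≤ ∏ _i : d, ∏ _j : d, B ^ (m + 1) :=
            Finset.prod_le_prod' fun i _ => Finset.prod_le_prod' fun j _ => hD1 i j
        _ = (B ^ (s ^ 2)) ^ (m + 1) := by
            rw [Finset.prod_const, Finset.prod_const, Finset.card_univ, ← hs, ← pow_mul, ← pow_mul,
              ← pow_mul]
            congr 1
            ring
        _ ≤ P ^ (m + 1) := Nat.pow_le_pow_left hle _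
        _ ≤ _ := Nat.pow_le_pow_left hPC _
    · intro i j k hk
      obtain ⟨z, hz⟩ := hD2 i j k hk
      obtain ⟨e, he⟩ : D i j ∣ ∏ i, ∏ j, D i j :=
        (Finset.dvd_prod_of_mem (D i) (Finset.mem_univ j)).trans
          (Finset.dvd_prod_of_mem (fun i => ∏ j, D i j) (Finset.mem_univ i))
      refine ⟨e * z, ?_⟩
      rw [he]
      push_cast
      rw [← hz]
      ring

end Pool.Agent.PSV.H1
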