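import Pool.Agent.PSV.StmtsS
import Pool.Agent.Helper1_MTN.Vgc

/-!
# Squad PSV, row VGQ: the values of the translates, with an explicit radius
-/

set_option autoImplicit false

namespace Pool.Agent.PSV.H1

open Matrix Filter Topology Pool.Agent.MT100 Pool.Agent.MT100G Pool.Agent.MT100A
  Pool.Agent.MT100D Pool.Agent.MT100G.H43 Pool.Agent.MTN Pool.Agent.PSV

variable {d : Type} [Fintype d] [DecidableEq d]

/-- the entries are analytic at `x₀` -/
def MAt (x₀ : ℂ) (M : ℂ → Matrix d d ℂ) : Prop := ∀ i j, AnalyticAt ℂ (fun x => M x i j) x₀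

omit [DecidableEq d] in
theorem MAt.mul {x₀ : ℂ} {M N : ℂ → Matrix d d ℂ} (hM : MAt x₀ M) (hN : MAt x₀ N) :
    MAt x₀ (fun x => M x * N x) := by
  intro i j
  have h1 : (fun x => (M x * N x) i j) = fun x => ∑ k, M x i k * N x k j := by
    funext x
    rw [Matrix.mul_apply]
  rw [h1]
  exact Finset.analyticAt_fun_sum Finset.univ fun k _ => (hM i k).mul (hN k j)

theorem eN_at {x₀ : ℂ} (N : Matrix d d ℤ) {g : ℂ → ℂ} (hg : AnalyticAt ℂ g x₀) :
    MAt x₀ (fun x => eN N (g x)) := by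
  intro i j
  have h1 : (fun x => eN N (g x) i j) = fun x => ∑ t ∈ Finset.range (Fintype.card d),
      (((t.factorial : ℂ)⁻¹) * (((N ^ t) i j : ℤ) : ℂ)) * g x ^ t := by
    funext x
    rw [eN_entry]
    refine Finset.sum_congr rfl fun t _ => ?_
    rw [Rat.smul_def]
    push_cast
    ring
  rw [h1]
  exact Finset.analyticAt_fun_sum _ fun t _ => analyticAt_const.mul (hg.pow t)

omit [Fintype d] in
theorem ed_at {x₀ : ℂ} (δ : d → ℚ) {g : ℂ → ℂ} (hg : AnalyticAt ℂ g x₀) :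
    MAt x₀ (fun x => ed δ (g x)) := by
  intro i j
  unfold ed
  by_cases h : i = j
  · subst h
    have h1 : (fun x => (diagonal fun i => Complex.exp ((δ i : ℂ) * g x)) i i) =
        fun x => Complex.exp ((δ i : ℂ) * g x) := by
      funext x
      rw [Matrix.diagonal_apply_eq]
    rw [h1]
    exact (analyticAt_const.mul hg).cexp
  · have h1 : (fun x => (diagonal fun i => Complex.exp ((δ i : ℂ) * g x)) i j) =
        fun _ => (0 : ℂ) := by
      funext x
      rw [Matrix.diagonal_apply_ne _ h]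
    rw [h1]
    exact analyticAt_const

/-- the value of a series is analytic in the ball of ACE -/
theorem evC_at (ace : AceStmt) {B : ℕ} (hB : 1 ≤ B) {f : PowerSeries ℚ} (hf : GTC B f) {x : ℂ}
    (hx : ‖x‖ < 1 / (2 * B)) : AnalyticAt ℂ (evC f) x := by
  refine DifferentiableOn.analyticAt (s := Metric.ball 0 (1 / (2 * (B : ℝ)))) (fun y hy => ?_)
    (Metric.isOpen_ball.mem_nhds ?_)
  · rw [mem_ball_zero_iff] at hy
    exact (ace B f hB hf y hy).2.2.differentiableAt.differentiableWithinAt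
  · rw [mem_ball_zero_iff]
    exact hx

theorem GG_at (F : Family d) (κ : ℕ) (x₀ : ℂ) (h0 : 1 - (κ : ℂ) * x₀ ∈ Complex.slitPlane)
    (hH : ∀ i j, AnalyticAt ℂ (evC (F.H i j)) (x₀ * (1 - (κ : ℂ) * x₀)⁻¹)) :
    MAt x₀ (MTN.H1.GG F κ) := by
  have h00 : 1 - (κ : ℂ) * x₀ ≠ 0 := Complex.slitPlane_ne_zero h0
  have h1 : AnalyticAt ℂ (fun x : ℂ => 1 - (κ : ℂ) * x) x₀ :=
    analyticAt_const.sub (analyticAt_const.mul analyticAt_id)
  have h2 : AnalyticAt ℂ (fun x : ℂ => x * (1 - (κ : ℂ) * x)⁻¹) x₀ :=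
    analyticAt_id.mul (h1.inv h00)
  have h3 : AnalyticAt ℂ (fun x : ℂ => -Complex.log (1 - (κ : ℂ) * x)) x₀ :=
    (h1.clog h0).neg
  refine MAt.mul (MAt.mul ?_ (eN_at F.N h3)) (ed_at F.δ h3)
  intro i j
  exact AnalyticAt.comp (g := evC (F.H i j)) (f := fun x : ℂ => x * (1 - (κ : ℂ) * x)⁻¹)
    (x := x₀) (hH i j) h2

/-- near zero (see `Helper1_MTN/Vgc.lean`) -/
theorem near (F : Family d) (κ : ℕ) :
    ∀ᶠ x : ℂ in 𝓝 0, ∀ i j, evC (F.T κ i j) x = MTN.H1.GG F κ x i j := by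
  have hG : ∀ i j, GType (F.T κ i j) := by
    obtain ⟨K', N', δ', q', B', h⟩ := MT100D.H20.trgD d F.H F.K F.N F.δ F.q F.B F.sys κ
    exact h.gH
  have hreal : ∀ᶠ w : ℝ in atTop, ∀ i j,
      evC (F.T κ i j) ((w : ℂ)⁻¹) = MTN.H1.GG F κ ((w : ℂ)⁻¹) i j := by
    filter_upwards [MT100D.H64.vagD d F κ, eventually_gt_atTop (κ : ℝ)] with w h1 h2
    intro i j
    have h3 : (κ : ℝ) < ‖(w : ℂ)‖ := by
      rw [Complex.norm_real, Real.norm_eq_abs]
      exact lt_of_lt_of_le h2 (le_abs_self w)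
    rw [MTN.H1.Y_eq F κ h3] at h1
    rw [h1]
    unfold Family.tv
    rw [Matrix.map_apply, ← Complex.ofReal_inv, evC_real]
  have htend : Tendsto (fun w : ℝ => (w : ℂ)⁻¹) atTop (𝓝[≠] 0) := by
    refine tendsto_nhdsWithin_iff.2 ⟨?_, ?_⟩
    · have h1 : Tendsto (fun w : ℝ => ((w⁻¹ : ℝ) : ℂ)) atTop (𝓝 ((0 : ℝ) : ℂ)) :=
        (Complex.continuous_ofReal.tendsto 0).comp tendsto_inv_atTop_zero
      rw [Complex.ofReal_zero] at h1
      refine h1.congr fun w => ?_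
      rw [Complex.ofReal_inv]
    · filter_upwards [eventually_gt_atTop (0 : ℝ)] with w hw
      exact inv_ne_zero (by exact_mod_cast hw.ne')
  rw [eventually_all]
  intro i
  rw [eventually_all]
  intro j
  rw [← AnalyticAt.frequently_eq_iff_eventually_eq (MTN.H1.evC_an (hG i j))
    (MTN.H1.GG_an F κ i j)]
  refine htend.frequently (Eventually.frequently ?_)
  filter_upwards [hreal] with w hw
  exact hw i j

/-- VGQ -/
theorem vgq (trb : TrbStmt) (ace : AceStmt) : VgqStmt := by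
  intro n
  obtain ⟨a, ha⟩ := trb n
  refine ⟨a + 4, ?_⟩
  intro d _ _ F B κ hF hκ w hw
  have hB2 : 2 ≤ B := hF.two
  have hB1 : 1 ≤ B := by omega
  have hBr : (2 : ℝ) ≤ B := by exact_mod_cast hB2
  have hT : ∀ i j, GTC (B ^ a) (F.T κ i j) := fun i j =>
    (ha d F.H F.K F.N F.δ F.q F.B B κ hF hκ i j).1
  have hBa1 : 1 ≤ B ^ a := Nat.one_le_pow _ _ (by omega)
  have hBa : (1 : ℝ) ≤ (B : ℝ) ^ a := by exact_mod_cast hBa1
  have hκB : (κ : ℝ) ≤ B := by exact_mod_cast hκ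
  -- the radius
  set r : ℝ := 1 / (4 * (B : ℝ) ^ (a + 1)) with hr
  have hBp : (0 : ℝ) < (B : ℝ) ^ (a + 1) := by positivity
  have hr0 : 0 < r := by positivity
  have hrB : (B : ℝ) * r ≤ 1 / 4 := by
    rw [hr, pow_succ]
    have h1 : (B : ℝ) * (1 / (4 * ((B : ℝ) ^ a * B))) = 1 / (4 * (B : ℝ) ^ a) := by
      field_simp
    rw [h1]
    apply one_div_le_one_div_of_le (by norm_num)
    linarith only [hBa]
  have hrT : ∀ x : ℂ, ‖x‖ < r → ‖x‖ < 1 / (2 * ((B ^ a : ℕ) : ℝ)) := by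
    intro x hx
    refine hx.trans_le ?_
    rw [hr]
    push_cast
    apply one_div_le_one_div_of_le (by positivity)
    rw [pow_succ]
    nlinarith only [hBa, hBr]
  have hκx : ∀ x : ℂ, ‖x‖ < r → ‖(κ : ℂ) * x‖ ≤ 1 / 4 := by
    intro x hx
    rw [norm_mul, Complex.norm_natCast]
    calc (κ : ℝ) * ‖x‖ ≤ B * r :=
          mul_le_mul hκB hx.le (norm_nonneg _) (by linarith only [hBr])
      _ ≤ 1 / 4 := hrB
  have hslit : ∀ x : ℂ, ‖x‖ < r → 1 - (κ : ℂ) * x ∈ Complex.slitPlane := by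
    intro x hx
    left
    have h1 : ((κ : ℂ) * x).re ≤ ‖(κ : ℂ) * x‖ := Complex.re_le_norm _
    have h2 := hκx x hx
    rw [Complex.sub_re, Complex.one_re]
    linarith only [h1, h2]
  have hquot : ∀ x : ℂ, ‖x‖ < r → ‖x * (1 - (κ : ℂ) * x)⁻¹‖ < 1 / (2 * B) := by
    intro x hx
    have h1 : 3 / 4 ≤ ‖1 - (κ : ℂ) * x‖ := by
      have h2 := norm_sub_norm_le (1 : ℂ) ((κ : ℂ) * x)
      rw [norm_one] at h2
      linarith only [h2, hκx x hx]
    have h3 : (0 : ℝ) < ‖1 - (κ : ℂ) * x‖ := by linarith only [h1]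
    rw [norm_mul, norm_inv, ← div_eq_mul_inv, div_lt_div_iff₀ h3 (by positivity)]
    have h4 : ‖x‖ * (2 * B) ≤ 2 * (B * r) := by
      nlinarith only [hx.le, hBr]
    have h5 : 2 * ((B : ℝ) * r) ≤ 1 / 2 := by linarith only [hrB]
    linarith only [h1, h4, h5]
  -- identity theorem
  have hball : ∀ i j, ∀ x : ℂ, ‖x‖ < r → evC (F.T κ i j) x = MTN.H1.GG F κ x i j := by
    intro i j x hx
    have hf : AnalyticOnNhd ℂ (evC (F.T κ i j)) (Metric.ball 0 r) := by
      intro y hy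
      rw [mem_ball_zero_iff] at hy
      exact evC_at ace hBa1 (hT i j) (hrT y hy)
    have hg : AnalyticOnNhd ℂ (fun x => MTN.H1.GG F κ x i j) (Metric.ball 0 r) := by
      intro y hy
      rw [mem_ball_zero_iff] at hy
      exact GG_at F κ y (hslit y hy)
        (fun i' j' => evC_at ace hB1 (hF.gH i' j') (hquot y hy)) i j
    have hne : evC (F.T κ i j) =ᶠ[𝓝 0] fun x => MTN.H1.GG F κ x i j := by
      filter_upwards [near F κ] with y hy
      exact hy i j
    have h := hf.eqOn_of_preconnected_of_eventuallyEq hg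
      (convex_ball (0 : ℂ) r).isPreconnected (Metric.mem_ball_self hr0) hne
    exact h (by rw [mem_ball_zero_iff]; exact hx)
  -- the point
  have hw1 : 4 * (B : ℝ) ^ (a + 1) < ‖w‖ := by
    refine lt_of_lt_of_le ?_ hw
    have h1 : (B : ℝ) ^ (a + 4) = (B : ℝ) ^ (a + 1) * B ^ 3 := by ring
    rw [h1]
    have h2 : (8 : ℝ) ≤ (B : ℝ) ^ 3 := by
      calc (8 : ℝ) = 2 ^ 3 := by norm_num
        _ ≤ _ := pow_le_pow_left₀ (by norm_num) hBr 3
    nlinarith only [h2, hBp]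
  have hw0 : 0 < ‖w‖ := lt_trans (by positivity) hw1
  have hwr : ‖w⁻¹‖ < r := by
    rw [norm_inv, hr, one_div]
    exact inv_strictAnti₀ (by positivity) hw1
  have hκw : (κ : ℝ) < ‖w‖ := by
    refine lt_of_le_of_lt hκB (lt_of_le_of_lt ?_ hw1)
    rw [pow_succ]
    nlinarith only [hBa, hBr]
  refine ⟨?_, fun i j => ?_⟩
  · rw [MTN.H1.Y_eq F κ hκw]
    unfold tvC
    ext i j
    rw [Matrix.map_apply]
    exact (hball i j _ hwr).symm
  · exact (ace (B ^ a) (F.T κ i j) hBa1 (hT i j) _ (hrT _ hwr)).1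

end Pool.Agent.PSV.H1
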