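import Pool.Agent.PSV.StmtsS

/-!
# Squad PSV, row WDQ: power saving from windows
-/

set_option autoImplicit false

namespace Pool.Agent.PSV.H1

open NumberField Pool.Agent.MTN Pool.Agent.HIK Pool.Agent.PSV

/-- the calculation in the main case -/
theorem wdq_calc {X r h M C B Cb Cs N NB NZ P Q : ℝ} (m : ℕ) (hm : 1 ≤ m) (hX : 1 ≤ X)
    (hr : 1 ≤ r) (hrh : r ≤ h) (hh : h * h = X) (hB : 1 ≤ B) (hC : 1 ≤ C) (hCb : 0 ≤ Cb)
    (hCs : 0 ≤ Cs) (hM : r / (2 * B) ≤ M) (hMX : M ≤ X) (hP : P ≤ X + M + 1) (hP0 : 0 ≤ P)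
    (hQ : Q ≤ X + M) (hQ0 : 0 ≤ Q) (h1 : M * N ≤ C * NB + M * NZ) (hNB : NB ≤ Cb * P ^ m)
    (hNZ : NZ ≤ Cs * Q ^ (m - 1) * (2 * h + 1)) :
    N ≤ (2 * 3 ^ m * Cb + 3 * 2 ^ m * Cs) * C * B * (X ^ m / r) := by
  have hX0 : 0 < X := by linarith only [hX]
  have hr0 : 0 < r := by linarith only [hr]
  have hh0 : 0 < h := by linarith only [hr, hrh]
  have hB0 : 0 < B := by linarith only [hB]
  have hC0 : 0 < C := by linarith only [hC]
  have hM0 : 0 < M := lt_of_lt_of_le (by positivity) hM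
  have e1 : NB ≤ Cb * (3 * X) ^ m :=
    hNB.trans (mul_le_mul_of_nonneg_left (pow_le_pow_left₀ hP0
      (by linarith only [hP, hMX, hX]) m) hCb)
  have e2 : NZ ≤ Cs * (2 * X) ^ (m - 1) * (3 * h) := by
    refine hNZ.trans ?_
    have f1 : Q ^ (m - 1) ≤ (2 * X) ^ (m - 1) :=
      pow_le_pow_left₀ hQ0 (by linarith only [hQ, hMX]) _
    have f2 : Cs * Q ^ (m - 1) ≤ Cs * (2 * X) ^ (m - 1) := mul_le_mul_of_nonneg_left f1 hCs
    exact mul_le_mul f2 (by linarith only [hr, hrh]) (by linarith only [hh0]) (by positivity)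
  have e3 : N ≤ C * NB / M + NZ := by
    rw [← sub_le_iff_le_add, le_div_iff₀ hM0]
    linarith only [h1]
  have e4 : C * NB / M ≤ C * (Cb * (3 * X) ^ m) * (2 * B / r) := by
    have f1 : 1 / M ≤ 2 * B / r := by
      rw [div_le_div_iff₀ hM0 hr0]
      rw [div_le_iff₀ (by positivity)] at hM
      linarith only [hM]
    calc C * NB / M = C * NB * (1 / M) := by ring
      _ ≤ C * (Cb * (3 * X) ^ m) * (1 / M) :=
          mul_le_mul_of_nonneg_right (mul_le_mul_of_nonneg_left e1 hC0.le) (by positivity)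
      _ ≤ _ := mul_le_mul_of_nonneg_left f1 (by positivity)
  have hXm : X ^ (m - 1) * X = X ^ m := by
    rw [← pow_succ]
    congr 1
    omega
  have e5 : (2 * X) ^ (m - 1) * (3 * h) ≤ 3 * 2 ^ m * (X ^ m / r) := by
    have f1 : X ^ (m - 1) * h ≤ X ^ m / r := by
      rw [le_div_iff₀ hr0, ← hXm, ← hh]
      calc (h * h) ^ (m - 1) * h * r ≤ (h * h) ^ (m - 1) * h * h :=
            mul_le_mul_of_nonneg_left hrh (by positivity)
        _ = _ := by ring
    have f2 : (2 : ℝ) ^ (m - 1) ≤ 2 ^ m := pow_le_pow_right₀ (by norm_num) (by omega)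
    calc (2 * X) ^ (m - 1) * (3 * h) = 3 * 2 ^ (m - 1) * (X ^ (m - 1) * h) := by
          rw [mul_pow]
          ring
      _ ≤ 3 * 2 ^ m * (X ^ m / r) := mul_le_mul (mul_le_mul_of_nonneg_left f2 (by norm_num)) f1
            (by positivity) (by positivity)
  have e6 : Cs * (2 * X) ^ (m - 1) * (3 * h) ≤ Cs * (3 * 2 ^ m * (X ^ m / r)) := by
    rw [mul_assoc]
    exact mul_le_mul_of_nonneg_left e5 hCs
  have e7 : C * (Cb * (3 * X) ^ m) * (2 * B / r) = 2 * 3 ^ m * Cb * C * B * (X ^ m / r) := by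
    rw [mul_pow]
    ring
  have e8 : Cs * (3 * 2 ^ m * (X ^ m / r)) ≤ 3 * 2 ^ m * Cs * C * B * (X ^ m / r) := by
    have f1 : 0 ≤ 3 * 2 ^ m * Cs * (X ^ m / r) := by positivity
    have f2 : 1 ≤ C * B := by nlinarith only [hC, hB]
    calc Cs * (3 * 2 ^ m * (X ^ m / r)) = 3 * 2 ^ m * Cs * (X ^ m / r) * 1 := by ring
      _ ≤ 3 * 2 ^ m * Cs * (X ^ m / r) * (C * B) := mul_le_mul_of_nonneg_left f2 f1
      _ = _ := by ring
  calc N ≤ C * NB / M + NZ := e3
    _ ≤ 2 * 3 ^ m * Cb * C * B * (X ^ m / r) + 3 * 2 ^ m * Cs * C * B * (X ^ m / r) := by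
        linarith only [e2, e4, e6, e7, e8]
    _ = _ := by ring

/-- WDQ -/
theorem wdq (smq : SmqStmt) (pth : PthStmt) (box : BoxStmt) : WdqStmt := by
  intro k _ _ α hα
  obtain ⟨Cb, hCb⟩ := box k
  obtain ⟨Cs, hCs⟩ := smq.1 k
  choose H0 hH0 using pth k
  classical
  set m : ℕ := Module.finrank ℚ k with hm
  have hm1 : 1 ≤ m := Module.finrank_pos
  obtain ⟨X0, hX0⟩ : ∃ X0 : ℕ, ∀ σ : k →+* ℂ, (H0 σ) ^ 2 ≤ X0 := by
    obtain ⟨X0, hX0⟩ := exists_nat_ge (∑ σ : k →+* ℂ, (H0 σ) ^ 2)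
    refine ⟨X0, fun σ => le_trans ?_ hX0⟩
    exact Finset.single_le_sum (f := fun σ : k →+* ℂ => (H0 σ) ^ 2) (fun σ _ => sq_nonneg _)
      (Finset.mem_univ σ)
  refine ⟨Cb * 2 ^ m * (4 + X0) + (2 * 3 ^ m * Cb + 3 * 2 ^ m * Cs), ?_⟩
  intro σ S C B hB hC hwin X hX
  have hXr : (1 : ℝ) ≤ X := by exact_mod_cast hX
  have hX0' : (0 : ℝ) < X := by linarith only [hXr]
  have hBr : (1 : ℝ) ≤ B := by exact_mod_cast hB
  have hCr : (1 : ℝ) ≤ C := by exact_mod_cast hC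
  have hαr : (1 : ℝ) ≤ α := by exact_mod_cast hα
  set r : ℝ := (X : ℝ) ^ (1 / (2 * (α : ℝ))) with hr
  have hr1 : 1 ≤ r := Real.one_le_rpow hXr (by positivity)
  have hr0 : 0 < r := by linarith only [hr1]
  have hexp : (X : ℝ) ^ ((m : ℝ) - 1 / (2 * (α : ℝ))) = (X : ℝ) ^ m / r := by
    rw [Real.rpow_sub hX0', Real.rpow_natCast]
  rw [hexp]
  set N : ℝ := (Nat.card {x : 𝓞 k // σ x ∈ S ∧ house (x : k) ≤ X} : ℝ) with hN
  have hCb0 : (0 : ℝ) ≤ Cb := by positivity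
  have hCs0 : (0 : ℝ) ≤ Cs := by positivity
  have hpos : 0 ≤ (X : ℝ) ^ m / r := by positivity
  -- the trivial bound
  have htriv : N ≤ Cb * 2 ^ m * (X : ℝ) ^ m := by
    have e1 : Nat.card {x : 𝓞 k // σ x ∈ S ∧ house (x : k) ≤ X} ≤
        Nat.card {a : 𝓞 k // house (a : k) ≤ X} := by
      have : Finite {a : 𝓞 k // house (a : k) ≤ X} := (hCb X).1
      exact Nat.card_le_card_of_injective
        (fun x : {x : 𝓞 k // σ x ∈ S ∧ house (x : k) ≤ X} =>
          (⟨x.1, x.2.2⟩ : {a : 𝓞 k // house (a : k) ≤ X}))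
        (fun x y h => Subtype.ext (congrArg (fun z => z.1) h))
    have e2 : Nat.card {x : 𝓞 k // σ x ∈ S ∧ house (x : k) ≤ X} ≤ Cb * (X + 1) ^ m :=
      e1.trans (hCb X).2
    have e3 : N ≤ Cb * ((X : ℝ) + 1) ^ m := by
      rw [hN]
      exact_mod_cast e2
    refine e3.trans ?_
    rw [mul_assoc, ← mul_pow]
    exact mul_le_mul_of_nonneg_left (pow_le_pow_left₀ (by positivity)
      (by linarith only [hXr]) m) hCb0
  by_cases hbig : 4 * (B : ℝ) < r ∧ (X0 : ℝ) ≤ X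
  · obtain ⟨hb1, hb2⟩ := hbig
    -- the main case
    set h : ℝ := Real.sqrt X with hh
    have hhh : h * h = X := Real.mul_self_sqrt hX0'.le
    have hh0 : 0 < h := Real.sqrt_pos.2 hX0'
    have hrα : r ^ α = h := by
      rw [hr, ← Real.rpow_natCast, ← Real.rpow_mul hX0'.le, hh, Real.sqrt_eq_rpow]
      congr 1
      field_simp
    have hrh : r ≤ h := by
      rw [← hrα]
      exact le_self_pow₀ hr1 (by omega)
    have hhX : h ≤ X := by
      have : 1 ≤ h := by linarith only [hr1, hrh]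
      nlinarith only [this, hhh]
    set M1 : ℕ := ⌊r / B⌋₊ with hM1
    have hM1a : (M1 : ℝ) ≤ r / B := Nat.floor_le (by positivity)
    have hM1b : r / B < M1 + 1 := Nat.lt_floor_add_one _
    have hrB4 : 4 < r / B := by
      rw [lt_div_iff₀ (by linarith only [hBr])]
      exact hb1
    have hM1c : 4 ≤ M1 := by
      have : (3 : ℝ) < M1 := by linarith only [hM1b, hrB4]
      have h3 : 3 < M1 := by exact_mod_cast this
      omega
    obtain ⟨M, hM⟩ : ∃ M : ℕ, M1 = M + 1 := ⟨M1 - 1, by omega⟩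
    have hM' : (M1 : ℝ) = M + 1 := by rw [hM]; push_cast; ring
    have hMr : r / (2 * B) ≤ M := by
      have e1 : r / (2 * B) = r / B / 2 := by field_simp
      rw [e1]
      linarith only [hM1b, hM', hrB4]
    have hMX : (M : ℝ) ≤ X := by
      have e1 : r / B ≤ r := div_le_self hr0.le hBr
      linarith only [hM', hM1a, e1, hrh, hhX]
    have hM1 : 1 ≤ M := by omega
    -- the window condition
    set Z : Set (𝓞 k) := {w | ‖σ (w : k)‖ < 2 * h} with hZ
    have hcond : ∀ w : 𝓞 k, w ∉ Z → house (w : k) ≤ X + M →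
        Nat.card {κ : ℕ // κ < M ∧ w - κ ∈ {x : 𝓞 k | σ x ∈ S}} ≤ C := by
      intro w hw1 hw2
      rw [hZ, Set.mem_setOf_eq, not_lt] at hw1
      have hle : ‖σ (w : k)‖ ≤ house (w : k) := norm_embedding_le_house _ _
      have hhouse : H0 σ ≤ house (w : k) := by
        have e1 : H0 σ ≤ h := by
          have f1 : H0 σ ≤ |H0 σ| := le_abs_self _
          have f2 : |H0 σ| ≤ h := by
            rw [hh]
            exact Real.abs_le_sqrt ((hX0 σ).trans hb2)
          exact f1.trans f2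
        linarith only [e1, hh0, hw1, hle]
      have hroot : house (w : k) ^ (1 / 2 : ℝ) ≤ ‖σ w‖ := by
        rw [← Real.sqrt_eq_rpow]
        refine le_trans ?_ hw1
        rw [Real.sqrt_le_left (by positivity)]
        nlinarith only [hw2, hMX, hhh, hX0']
      have hP := hH0 σ w hhouse hroot
      have hwM : ((B * (M + 1) : ℕ) : ℝ) ^ α ≤ ‖σ w‖ := by
        have e1 : ((B * (M + 1) : ℕ) : ℝ) ≤ r := by
          push_cast
          rw [← hM']
          rw [le_div_iff₀ (by linarith only [hBr])] at hM1a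
          linarith only [hM1a]
        calc ((B * (M + 1) : ℕ) : ℝ) ^ α ≤ r ^ α := pow_le_pow_left₀ (by positivity) e1 α
          _ = h := hrα
          _ ≤ ‖σ w‖ := by linarith only [hh0, hw1]
      have h3 := hwin M (σ w) hP hwM
      have h4 : ∀ κ : ℕ, (κ < M ∧ w - (κ : 𝓞 k) ∈ {x : 𝓞 k | σ x ∈ S}) ↔
          (κ < M ∧ σ w - κ ∈ S) := by
        intro κ
        rw [Set.mem_setOf_eq]
        simp
      have h5 : Nat.card {κ : ℕ // κ < M ∧ w - (κ : 𝓞 k) ∈ {x : 𝓞 k | σ x ∈ S}} =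
          Nat.card {κ : ℕ // κ < M ∧ σ w - κ ∈ S} :=
        Nat.card_congr (Equiv.subtypeEquivRight h4)
      rw [h5]
      exact h3
    have hmain := smq.2 k {x : 𝓞 k | σ x ∈ S} Z C M X hM1 hcond
    have hNB := (hCb (X + M)).2
    have hNZ := hCs σ (X + M) (2 * h) (by omega) (by positivity)
    have hfin := wdq_calc (X := X) (r := r) (h := h) (M := M) (C := C) (B := B) (Cb := Cb)
      (Cs := Cs) (N := N)
      (NB := (Nat.card {a : 𝓞 k // house (a : k) ≤ ((X + M : ℕ) : ℝ)} : ℝ))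
      (NZ := (Nat.card {a : 𝓞 k // a ∈ Z ∧ house (a : k) ≤ ((X + M : ℕ) : ℝ)} : ℝ))
      (P := X + M + 1) (Q := X + M) m hm1 hXr hr1 hrh hhh hBr hCr hCb0 hCs0 hMr hMX le_rfl
      (by positivity) le_rfl (by positivity) (by rw [hN]; exact_mod_cast hmain)
      (by exact_mod_cast hNB) (hNZ.trans (le_of_eq (by rw [Nat.cast_add])))
    refine hfin.trans ?_
    push_cast
    have f1 : 0 ≤ (Cb : ℝ) * 2 ^ m * (4 + X0) * C * B * ((X : ℝ) ^ m / r) := by positivity
    nlinarith only [f1]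
  · -- the trivial case
    have hrle : r ≤ (4 + X0) * B := by
      rw [not_and_or, not_lt, not_le] at hbig
      have hX0B : (0 : ℝ) ≤ X0 * B := by positivity
      rcases hbig with hb | hb
      · linarith only [hb, hX0B]
      · have e1 : r ≤ X := by
          have f1 : (X : ℝ) ^ (1 / (2 * (α : ℝ))) ≤ (X : ℝ) ^ (1 : ℝ) := by
            apply Real.rpow_le_rpow_of_exponent_le hXr
            rw [div_le_one (by positivity)]
            linarith only [hαr]
          rwa [Real.rpow_one] at f1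
        nlinarith only [e1, hb, hBr, hX0', hXr]
    have e1 : (X : ℝ) ^ m ≤ (4 + X0) * B * ((X : ℝ) ^ m / r) := by
      have f1 : (X : ℝ) ^ m = r * ((X : ℝ) ^ m / r) := by
        field_simp
      calc (X : ℝ) ^ m = r * ((X : ℝ) ^ m / r) := f1
        _ ≤ _ := mul_le_mul_of_nonneg_right hrle hpos
    have e2 : N ≤ Cb * 2 ^ m * ((4 + X0) * B * ((X : ℝ) ^ m / r)) :=
      htriv.trans (mul_le_mul_of_nonneg_left e1 (by positivity))
    have e3 : (Cb : ℝ) * 2 ^ m * ((4 + X0) * B * ((X : ℝ) ^ m / r)) ≤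
        Cb * 2 ^ m * (4 + X0) * C * B * ((X : ℝ) ^ m / r) := by
      have f1 : 0 ≤ (Cb : ℝ) * 2 ^ m * (4 + X0) * B * ((X : ℝ) ^ m / r) := by positivity
      calc (Cb : ℝ) * 2 ^ m * ((4 + X0) * B * ((X : ℝ) ^ m / r))
          = Cb * 2 ^ m * (4 + X0) * B * ((X : ℝ) ^ m / r) * 1 := by ring
        _ ≤ Cb * 2 ^ m * (4 + X0) * B * ((X : ℝ) ^ m / r) * C :=
            mul_le_mul_of_nonneg_left hCr f1
        _ = _ := by ring
    push_cast
    have f2 : 0 ≤ (2 * 3 ^ m * (Cb : ℝ) + 3 * 2 ^ m * Cs) * C * B * ((X : ℝ) ^ m / r) := by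
      positivity
    linarith only [e2, e3, f2]

end Pool.Agent.PSV.H1
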